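import Pool.Agent.KTB.StmtsKB

/-!
# Squad KTB, row TGC
-/

set_option autoImplicit false

namespace Pool.Agent.KTB.H23

open Pool.Agent.KTB Finset
open scoped Classical

theorem tgc (h1 : TgaStmt) : TgcStmt := by
  intro ι κ r E K hR C k t t' hC hk hkC hc ht ht' htt hi hi'
  obtain ⟨hA, hB, hCc, -, -, -⟩ := h1 ι κ r E K hR
  obtain ⟨hCK, hCn, hCr⟩ := hC
  -- a third element
  obtain ⟨z, hz, hzt, hzt'⟩ : ∃ z ∈ E k, z ≠ t ∧ z ≠ t' := by
    have h2 : ((E k) \ {t, t'}).Nonempty := by
      rw [← Finset.card_pos]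
      have h3 := Finset.le_card_sdiff ({t, t'} : Finset ι) (E k)
      have h4 := Finset.card_le_two (a := t) (b := t')
      omega
    obtain ⟨z, hz⟩ := h2
    simp only [Finset.mem_sdiff, Finset.mem_insert, Finset.mem_singleton, not_or] at hz
    exact ⟨z, hz.1, hz.2.1, hz.2.2⟩
  set A := C.biUnion E with hAdef
  set B := ((E k).erase t).erase t' |>.erase z with hBdef
  have hBcard : B.card = (E k).card - 3 := by
    rw [hBdef, Finset.card_erase_of_mem, Finset.card_erase_of_mem, Finset.card_erase_of_mem ht]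
    · omega
    · exact Finset.mem_erase.2 ⟨htt.symm, ht'⟩
    · exact Finset.mem_erase.2 ⟨hzt', Finset.mem_erase.2 ⟨hzt, hz⟩⟩
  -- the rank of A ∪ B
  have hAB : r (A ∪ B) ≤ r A + B.card := by
    have h2 := hR.sub A B
    have h3 := hA B
    omega
  have hABt : r ((A ∪ B) ∪ {t, t'}) = r (A ∪ B) := by
    refine hCc (A ∪ B) {t, t'} fun y hy => ?_
    rw [Finset.mem_insert, Finset.mem_singleton] at hy
    rcases hy with rfl | rfl
    · exact hB A (A ∪ B) Finset.subset_union_left _ hi
    · exact hB A (A ∪ B) Finset.subset_union_left _ hi'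
  have hz' : r (insert z ((A ∪ B) ∪ {t, t'})) = r ((A ∪ B) ∪ {t, t'}) := by
    refine hB ((E k).erase z) _ ?_ z ?_
    · intro y hy
      obtain ⟨hyz, hyE⟩ := Finset.mem_erase.1 hy
      by_cases h2 : y = t
      · exact Finset.mem_union_right _ (by rw [h2]; exact Finset.mem_insert_self _ _)
      by_cases h3 : y = t'
      · exact Finset.mem_union_right _ (by rw [h3]; simp)
      refine Finset.mem_union_left _ (Finset.mem_union_right _ ?_)
      exact Finset.mem_erase.2 ⟨hyz, Finset.mem_erase.2 ⟨h3, Finset.mem_erase.2 ⟨h2, hyE⟩⟩⟩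
    · rw [Finset.insert_erase hz]
      exact (hR.cir k hk z hz).symm
  have hun : (insert k C).biUnion E ⊆ insert z ((A ∪ B) ∪ {t, t'}) := by
    intro y hy
    rw [Finset.biUnion_insert, Finset.mem_union] at hy
    rcases hy with hy | hy
    · by_cases h1' : y = z
      · rw [h1']; exact Finset.mem_insert_self _ _
      refine Finset.mem_insert_of_mem ?_
      by_cases h2 : y = t
      · exact Finset.mem_union_right _ (by rw [h2]; exact Finset.mem_insert_self _ _)
      by_cases h3 : y = t'
      · exact Finset.mem_union_right _ (by rw [h3]; simp)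
      refine Finset.mem_union_left _ (Finset.mem_union_right _ ?_)
      exact Finset.mem_erase.2 ⟨h1', Finset.mem_erase.2 ⟨h3, Finset.mem_erase.2 ⟨h2, hy⟩⟩⟩
    · exact Finset.mem_insert_of_mem (Finset.mem_union_left _ (Finset.mem_union_left _ hy))
  have hlow := hR.irr (insert k C) (Finset.insert_subset hk hCK) (Finset.insert_nonempty _ _)
  have hmono := hR.mono _ _ hun
  have hex : rexc E (insert k C) = ((E k).card - 2) + rexc E C := by
    unfold rexc
    rw [Finset.sum_insert hkC]
  rw [hex] at hlow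
  rw [hz', hABt] at hmono
  omega

end Pool.Agent.KTB.H23
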